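import Mathlib
import Pool.Graph.R_pool_sql_team_seeded_1e53cb71.Helper82K9.EL.EL8

set_option autoImplicit false

/-! The functions which are `-1` at the primes are far from the real characters. -/

namespace Pool.Agent.H617.WR
open Finset Filter Topology
open Pool.Agent.Helper82K9.EL (RMul FarR dstR famR Sm)
open ArithmeticFunction.vonMangoldt (residueClass)

/-- the reciprocals of the primes in the class of one -/
noncomputable def uq (q n : ℕ) : ℝ := if n.Prime ∧ (n : ZMod q) = 1 then 1 / (n : ℝ) else 0

lemma uq_nonneg (q n : ℕ) : 0 ≤ uq q n := by unfold uq; split_ifs <;> positivity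

/-- the sum of the reciprocals of the primes in the class of one diverges -/
lemma uq_div (q : ℕ) [NeZero q] : ¬ Summable (uq q) := by
  intro hs
  obtain ⟨C, hC⟩ := ArithmeticFunction.vonMangoldt.LSeries_residueClass_lower_bound (q := q) (a := 1) isUnit_one
  have hnp := ArithmeticFunction.vonMangoldt.summable_residueClass_non_primes_div (q := q) (1 : ZMod q)
  obtain ⟨C0, hC0⟩ : ∃ C0, C0 = ∑' n : ℕ, (if n.Prime then 0 else residueClass (1 : ZMod q) n) / (n : ℝ) := ⟨_, rfl⟩
  have hφ : 0 < (q.totient : ℝ)⁻¹ := inv_pos.mpr (mod_cast q.totient.pos_of_neZero)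
  obtain ⟨v, hv⟩ : ∃ v : ℝ → ℕ → ℝ, v = fun (y : ℝ) (n : ℕ) => y * (Real.log n * (n : ℝ) ^ (-y)) * uq q n := ⟨_, rfl⟩
  have hv0 : ∀ y n, 0 ≤ y → 0 ≤ v y n := by
    intro y n hy
    rw [hv]
    have h1 := Real.log_natCast_nonneg n
    have h2 := uq_nonneg q n
    have h3 : (0 : ℝ) ≤ (n : ℝ) ^ (-y) := Real.rpow_nonneg (Nat.cast_nonneg _) _
    simp only
    positivity
  have hv1 : ∀ y n, 0 < y → v y n ≤ uq q n := by
    intro y n hy
    rw [hv]
    simp only
    have h2 := uq_nonneg q n
    apply mul_le_of_le_one_left h2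
    rcases Nat.eq_zero_or_pos n with h0 | h0
    · subst h0
      simp
    · have hn0 : (0 : ℝ) < n := by exact_mod_cast h0
      have h3 : (0 : ℝ) < (n : ℝ) ^ y := Real.rpow_pos_of_pos hn0 _
      have h4 : y * Real.log n ≤ (n : ℝ) ^ y := by
        have h5 := Real.log_le_sub_one_of_pos h3
        rw [Real.log_rpow hn0] at h5
        linarith
      rw [Real.rpow_neg hn0.le, ← mul_assoc, ← div_eq_mul_inv, div_le_one h3]
      exact h4
  have key : ∀ y : ℝ, 0 < y → y ≤ 1 → (q.totient : ℝ)⁻¹ ≤ y * (C + C0) + ∑' n, v y n := by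
    intro y hy hy1
    have h1 := hC (x := 1 + y) ⟨by linarith, by linarith⟩
    have e1 : (1 : ℝ) + y - 1 = y := by ring
    rw [e1] at h1
    have hsv : Summable (v y) := Summable.of_nonneg_of_le (fun n => hv0 y n hy.le) (fun n => hv1 y n hy) hs
    have hsd : Summable (fun n => v y n / y) := hsv.div_const y
    have h2 : ∀ n : ℕ, residueClass (1 : ZMod q) n / (n : ℝ) ^ (1 + y) ≤
        v y n / y + (if n.Prime then 0 else residueClass (1 : ZMod q) n) / (n : ℝ) := by
      intro n
      have hr := ArithmeticFunction.vonMangoldt.residueClass_nonneg (1 : ZMod q) n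
      rcases Nat.eq_zero_or_pos n with h0 | h0
      · subst h0
        have h3 : 0 ≤ v y 0 / y := div_nonneg (hv0 y 0 hy.le) hy.le
        simpa using h3
      · have hn0 : (0 : ℝ) < n := by exact_mod_cast h0
        have hn1 : (1 : ℝ) ≤ n := by exact_mod_cast h0
        by_cases hp : n.Prime
        · rw [if_pos hp, zero_div, add_zero, hv]
          simp only
          unfold uq
          by_cases hc : (n : ZMod q) = 1
          · rw [if_pos ⟨hp, hc⟩]
            have e2 : residueClass (1 : ZMod q) n = Real.log n := by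
              unfold ArithmeticFunction.vonMangoldt.residueClass
              rw [Set.indicator_of_mem (by exact hc), ArithmeticFunction.vonMangoldt_apply_prime hp]
            rw [e2, Real.rpow_add hn0, Real.rpow_one, Real.rpow_neg hn0.le]
            have h3 : (0 : ℝ) < (n : ℝ) ^ y := Real.rpow_pos_of_pos hn0 _
            apply le_of_eq
            field_simp
          · rw [if_neg (fun h => hc h.2), mul_zero, zero_div]
            have e2 : residueClass (1 : ZMod q) n = 0 := by
              unfold ArithmeticFunction.vonMangoldt.residueClass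
              rw [Set.indicator_of_notMem (by exact hc)]
            rw [e2, zero_div]
        · rw [if_neg hp]
          have h3 : 0 ≤ v y n / y := div_nonneg (hv0 y n hy.le) hy.le
          have h4 : residueClass (1 : ZMod q) n / (n : ℝ) ^ (1 + y) ≤ residueClass (1 : ZMod q) n / (n : ℝ) := by
            apply div_le_div_of_nonneg_left hr hn0
            nth_rewrite 1 [← Real.rpow_one (n : ℝ)]
            exact Real.rpow_le_rpow_of_exponent_le hn1 (by linarith)
          linarith
    have hs2 : Summable (fun n : ℕ => v y n / y + (if n.Prime then 0 else residueClass (1 : ZMod q) n) / (n : ℝ)) := hsd.add hnp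
    have hs3 : Summable (fun n : ℕ => residueClass (1 : ZMod q) n / (n : ℝ) ^ (1 + y)) := by
      apply Summable.of_nonneg_of_le _ h2 hs2
      intro n
      exact div_nonneg (ArithmeticFunction.vonMangoldt.residueClass_nonneg _ n) (Real.rpow_nonneg (Nat.cast_nonneg _) _)
    have h3 := Summable.tsum_le_tsum h2 hs3 hs2
    rw [Summable.tsum_add hsd hnp, ← hC0, tsum_div_const] at h3
    have h4 : (q.totient : ℝ)⁻¹ / y ≤ C + (∑' n, v y n) / y + C0 := by linarith
    rw [div_le_iff₀ hy] at h4
    have h5 : (C + (∑' n, v y n) / y + C0) * y = y * (C + C0) + ∑' n, v y n := by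
      field_simp
      ring
    linarith
  have hlim : Tendsto (fun k : ℕ => (1 / ((k : ℝ) + 1)) * (C + C0) + ∑' n, v (1 / ((k : ℝ) + 1)) n) atTop (𝓝 0) := by
    have t0 : Tendsto (fun k : ℕ => 1 / ((k : ℝ) + 1)) atTop (𝓝 0) := tendsto_one_div_add_atTop_nhds_zero_nat
    have t1 : Tendsto (fun k : ℕ => (1 / ((k : ℝ) + 1)) * (C + C0)) atTop (𝓝 0) := by
      have := t0.mul_const (C + C0)
      rwa [zero_mul] at this
    have t2 : Tendsto (fun k : ℕ => ∑' n, v (1 / ((k : ℝ) + 1)) n) atTop (𝓝 (∑' _n : ℕ, (0 : ℝ))) := by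
      apply tendsto_tsum_of_dominated_convergence hs
      · intro n
        have t3 : Tendsto (fun k : ℕ => 1 / ((k : ℝ) + 1) * (Real.log n * uq q n)) atTop (𝓝 0) := by
          have := t0.mul_const (Real.log n * uq q n)
          rwa [zero_mul] at this
        refine tendsto_of_tendsto_of_tendsto_of_le_of_le tendsto_const_nhds t3 ?_ ?_
        · intro k
          exact hv0 _ _ (by positivity)
        · intro k
          rw [hv]
          simp only
          have h1 := Real.log_natCast_nonneg n
          have h2 := uq_nonneg q n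
          have h3 : (0 : ℝ) ≤ 1 / ((k : ℝ) + 1) := by positivity
          have h4 : (n : ℝ) ^ (-(1 / ((k : ℝ) + 1))) * uq q n ≤ 1 * uq q n := by
            rcases Nat.eq_zero_or_pos n with h0 | h0
            · subst h0
              have : uq q 0 = 0 := by
                unfold uq
                rw [if_neg (fun h => Nat.not_prime_zero h.1)]
              rw [this]
              simp
            · apply mul_le_mul_of_nonneg_right _ h2
              apply Real.rpow_le_one_of_one_le_of_nonpos (by exact_mod_cast h0)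
              linarith
          calc 1 / ((k : ℝ) + 1) * (Real.log n * (n : ℝ) ^ (-(1 / ((k : ℝ) + 1)))) * uq q n =
                (1 / ((k : ℝ) + 1) * Real.log n) * ((n : ℝ) ^ (-(1 / ((k : ℝ) + 1))) * uq q n) := by ring
            _ ≤ (1 / ((k : ℝ) + 1) * Real.log n) * (1 * uq q n) := mul_le_mul_of_nonneg_left h4 (by positivity)
            _ = _ := by ring
      · apply Eventually.of_forall
        intro k n
        rw [Real.norm_eq_abs, abs_of_nonneg (hv0 _ _ (by positivity))]
        exact hv1 _ _ (by positivity)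
    rw [tsum_zero] at t2
    have := t1.add t2
    rwa [add_zero] at this
  have hge : ∀ k : ℕ, (q.totient : ℝ)⁻¹ ≤ (1 / ((k : ℝ) + 1)) * (C + C0) + ∑' n, v (1 / ((k : ℝ) + 1)) n := by
    intro k
    apply key _ (by positivity)
    rw [div_le_one (by positivity)]
    have : (0 : ℝ) ≤ k := Nat.cast_nonneg _
    linarith
  have := ge_of_tendsto' hlim hge
  linarith

lemma uq_big (A q : ℕ) (hq : 1 ≤ q) : ∃ N₀ : ℕ, ∀ N : ℕ, N₀ ≤ N → (A : ℝ) ≤ ∑ n ∈ range N, uq q n := by
  have : NeZero q := ⟨by omega⟩
  have h1 := (not_summable_iff_tendsto_nat_atTop_of_nonneg (fun n => uq_nonneg q n)).1 (uq_div q)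
  exact eventually_atTop.1 (h1.eventually_ge_atTop (A : ℝ))

/-- the functions which are `-1` at the primes are far from the real characters -/
lemma far_neg (A : ℕ) : ∃ N₀ : ℕ, ∀ N : ℕ, N₀ ≤ N → ∀ F : ℕ → ℝ, (∀ p : ℕ, p.Prime → F p = -1) → FarR A N F := by
  classical
  have h0 : ∀ q : ℕ, ∃ N₀ : ℕ, 1 ≤ q → ∀ N : ℕ, N₀ ≤ N → (A : ℝ) ≤ ∑ n ∈ range N, uq q n := by
    intro q
    by_cases hq : 1 ≤ q
    · obtain ⟨N₀, h⟩ := uq_big A q hq
      exact ⟨N₀, fun _ => h⟩
    · exact ⟨0, fun h => absurd h hq⟩
  choose Nq hNq using h0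
  refine ⟨∑ q ∈ range (A + 1), Nq q, fun N hN F hF q χ h1 h2 h3 => ?_⟩
  have hq := single_le_sum (f := Nq) (fun _ _ => Nat.zero_le _) (mem_range.2 (show q < A + 1 by omega))
  have h4 := hNq q h1 (N + 1) (by omega)
  refine h4.trans ?_
  unfold Pool.Agent.Helper82K9.EL.dstR
  have h5 : ∑ n ∈ range (N + 1), uq q n ≤ ∑ n ∈ range (N + 1), (if n.Prime then (1 - ((F n : ℂ) * χ (n : ZMod q)).re) / (n : ℝ) else 0) := by
    apply sum_le_sum
    intro n _
    unfold uq
    by_cases hp : n.Prime
    · have hn0 : (0 : ℝ) < n := by exact_mod_cast hp.pos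
      rw [if_pos hp, hF n hp]
      have e1 : ((((-1 : ℝ)) : ℂ) * χ (n : ZMod q)).re = -(χ (n : ZMod q)).re := by
        push_cast
        rw [neg_one_mul, Complex.neg_re]
      rw [e1]
      by_cases hc : (n : ZMod q) = 1
      · rw [if_pos ⟨hp, hc⟩, hc, map_one, Complex.one_re]
        apply div_le_div_of_nonneg_right _ hn0.le
        norm_num
      · rw [if_neg (fun h => hc h.2)]
        apply div_nonneg _ hn0.le
        have h6 := (abs_le.1 ((Complex.abs_re_le_norm (χ (n : ZMod q))).trans (χ.norm_le_one _))).1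
        linarith
    · rw [if_neg hp, if_neg (fun h => hp h.1)]
  refine h5.trans (le_of_eq ?_)
  rw [← sum_filter]
  apply sum_congr _ (fun _ _ => rfl)
  ext n
  rw [mem_filter, mem_filter, mem_range, mem_Icc]
  constructor
  · rintro ⟨a, b⟩
    exact ⟨⟨b.one_le, by omega⟩, b⟩
  · rintro ⟨a, b⟩
    exact ⟨by omega, b⟩

/-- the Liouville function -/
noncomputable def lamR (n : ℕ) : ℝ := (-1) ^ ArithmeticFunction.cardFactors n

lemma lamR_rmul : RMul lamR where
  one := by
    unfold lamR
    simp
  abs := by
    intro n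
    unfold lamR
    rw [abs_pow, abs_neg, abs_one, one_pow]
  mul := by
    intro m n hm hn _
    unfold lamR
    rw [ArithmeticFunction.cardFactors_mul (by omega) (by omega), pow_add]

lemma lamR_prime {p : ℕ} (hp : p.Prime) : lamR p = -1 := by
  unfold lamR
  rw [ArithmeticFunction.cardFactors_apply_prime hp, pow_one]

/-- the Moebius function -/
noncomputable def muR (n : ℕ) : ℝ := ((ArithmeticFunction.moebius n : ℤ) : ℝ)

lemma muR_rmul : RMul muR where
  one := by
    unfold muR
    simp
  abs := by
    intro n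
    unfold muR
    have := ArithmeticFunction.abs_moebius_le_one (n := n)
    exact_mod_cast this
  mul := by
    intro m n _ _ h
    unfold muR
    rw [ArithmeticFunction.isMultiplicative_moebius.map_mul_of_coprime h]
    push_cast
    ring

lemma muR_prime {p : ℕ} (hp : p.Prime) : muR p = -1 := by
  unfold muR
  rw [ArithmeticFunction.moebius_apply_prime hp]
  norm_num

end Pool.Agent.H617.WR
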