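import Mathlib
import Pool.Agent.H617.WR.G
import Pool.Agent.H617.WR.L
import Pool.Agent.H617.WQ.G
import Pool.Agent.H617.WK.Wk

set_option autoImplicit false

/-! The sums over arbitrary sets of shifts: products of von Mangoldt functions. -/

namespace Pool.Agent.H617.WR
open Finset Filter Topology
open Pool.Agent.H373R2.T7 (Vz Vz_pos pz mem_pz exI energy)
open Pool.Agent.E8helper16.SL
open Pool.Agent.H617.WH
open Pool.Agent.H617.WK
open Pool.Agent.H617.WN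
open Pool.Agent.H617.WQ (small_err log_sqrt loglog_small)
open Pool.Agent.Helper82K9.EL (RMul FarR dstR famR Sm)

open Classical in
/-- the weight -/
noncomputable def wL {k : ℕ} (a : Fin k → ℕ) (z N : ℕ) (u : ℕ → ℝ) (n : ℕ) : ℝ :=
  if n ≤ N ∧ Rough (fun i => (a i : ℤ)) z (n : ℤ) then (1 / 4 : ℝ) ^ k * (Lk a n * u n) else 0

section wl
variable {k : ℕ} {a : Fin k → ℕ} {z N : ℕ} {u : ℕ → ℝ}

lemma lk_le_log (hN : 1 ≤ N) (ha : ∀ i, a i ≤ 2 * N) {n : ℕ} (hn : n ≤ N) : Lk a n ≤ Real.log (3 * N) ^ k := by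
  rw [← LL_Lk]
  apply LL_le_log _ hN _ hn
  intro i
  rw [abs_of_nonneg (by positivity)]
  exact_mod_cast ha i

lemma wl_wt (hN : 27 ≤ N) (ha : ∀ i, a i ≤ 2 * N) (hu0 : ∀ n, 0 ≤ u n) (hu1 : ∀ n, u n ≤ 1) (hz : Real.log N / 3 ≤ Real.log z) :
    Wt (fun i => (a i : ℤ)) z (wL a z N u) where
  nn := by
    intro n
    unfold wL
    split_ifs
    · exact mul_nonneg (by positivity) (mul_nonneg (Lk_nonneg a n) (hu0 n))
    · exact le_rfl
  le := by
    intro n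
    have hz0 := Real.log_natCast_nonneg z
    unfold wL
    split_ifs with h
    · have h1 := lk_le_log (by omega) ha h.1
      have hN3 : (27 : ℝ) ≤ N := by exact_mod_cast hN
      have h2 : Real.log (3 * N) / 4 ≤ Real.log z := by
        refine le_trans ?_ hz
        rw [Real.log_mul (by norm_num) (by linarith)]
        have g1 := Real.log_le_log (by norm_num) hN3
        have g2 : Real.log 27 = 3 * Real.log 3 := by
          rw [show (27 : ℝ) = 3 ^ 3 by norm_num, Real.log_pow]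
          norm_num
        linarith
      have h0 : 0 ≤ Real.log (3 * (N : ℝ)) := Real.log_nonneg (by linarith)
      have h3 : Lk a n * u n ≤ Real.log (3 * N) ^ k := by
        calc Lk a n * u n ≤ Lk a n * 1 := mul_le_mul_of_nonneg_left (hu1 n) (Lk_nonneg a n)
          _ = Lk a n := mul_one _
          _ ≤ _ := h1
      calc (1 / 4 : ℝ) ^ k * (Lk a n * u n) ≤ (1 / 4 : ℝ) ^ k * Real.log (3 * N) ^ k := mul_le_mul_of_nonneg_left h3 (by positivity)
        _ = (Real.log (3 * N) / 4) ^ k := by rw [← mul_pow]; congr 1; ring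
        _ ≤ _ := pow_le_pow_left₀ (by positivity) h2 k
    · positivity
  sup := by
    intro n hn
    unfold wL at hn
    split_ifs at hn with h
    · exact h.2
    · exact absurd rfl hn

lemma wl_le (hu0 : ∀ n, 0 ≤ u n) (n : ℕ) : 4 ^ k * wL a z N u n ≤ Lk a n * u n := by
  unfold wL
  split_ifs
  · rw [← mul_assoc, ← mul_pow]
    norm_num
  · rw [mul_zero]
    exact mul_nonneg (Lk_nonneg a n) (hu0 n)

/-- the exceptional integers -/
lemma wl_diff (hN : 1 ≤ N) (ha : ∀ i, a i ≤ 2 * N) (hu1 : ∀ n, u n ≤ 1) (v : ℕ → ℝ) (hv0 : ∀ n, 0 ≤ v n) (hv : ∀ n, v n ≤ 1) :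
    ∑ n ∈ Ioc 0 N, (Lk a n * u n - 4 ^ k * wL a z N u n) * v n ≤
      Real.log (3 * N) ^ k * (k * (z * (Nat.log 2 (3 * N) + 1)) : ℕ) := by
  classical
  have hN1 : (1 : ℝ) ≤ N := by exact_mod_cast hN
  have h0 : 0 ≤ Real.log (3 * (N : ℝ)) := Real.log_nonneg (by linarith)
  have h1 : ∀ n ∈ Ioc 0 N, (Lk a n * u n - 4 ^ k * wL a z N u n) * v n ≤
      if n ∈ EE (fun i => (a i : ℤ)) z N then Real.log (3 * N) ^ k else 0 := by
    intro n hn
    rw [mem_Ioc] at hn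
    by_cases hR : Rough (fun i => (a i : ℤ)) z (n : ℤ)
    · have e1 : Lk a n * u n - 4 ^ k * wL a z N u n = 0 := by
        unfold wL
        rw [if_pos ⟨hn.2, hR⟩, ← mul_assoc, ← mul_pow]
        norm_num
      rw [e1, zero_mul]
      split_ifs <;> positivity
    · have e1 : wL a z N u n = 0 := by
        unfold wL
        rw [if_neg (fun q => hR q.2)]
      rw [e1, mul_zero, sub_zero]
      by_cases hL : Lk a n = 0
      · rw [hL, zero_mul, zero_mul]
        split_ifs <;> positivity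
      · rw [if_pos (by
          unfold EE
          rw [mem_filter, mem_Icc]
          exact ⟨⟨hn.1, hn.2⟩, by rw [LL_Lk]; exact hL, hR⟩)]
        have h2 := lk_le_log hN ha hn.2
        have h3 : u n * v n ≤ 1 := mul_le_one₀ (hu1 n) (hv0 n) (hv n)
        calc Lk a n * u n * v n = Lk a n * (u n * v n) := by ring
          _ ≤ Lk a n * 1 := mul_le_mul_of_nonneg_left h3 (Lk_nonneg a n)
          _ ≤ _ := by rw [mul_one]; exact h2
  refine (sum_le_sum h1).trans ?_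
  rw [← sum_filter, sum_const, nsmul_eq_mul, mul_comm]
  apply mul_le_mul_of_nonneg_left _ (by positivity)
  have h2 : ((Ioc 0 N).filter (fun n => n ∈ EE (fun i => (a i : ℤ)) z N)).card ≤ (EE (fun i => (a i : ℤ)) z N).card := by
    apply card_le_card
    intro n hn
    rw [mem_filter] at hn
    exact hn.2
  have h3 := card_EE (fun i => (a i : ℤ)) (N := N) (fun i => by
    rw [abs_of_nonneg (by positivity)]
    exact_mod_cast ha i) z
  exact_mod_cast h2.trans h3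

end wl

/-- the error -/
lemma err_sqrt (k : ℕ) (ε : ℝ) (hε : 0 < ε) :
    ∀ᶠ N : ℕ in atTop, Real.log (3 * N) ^ k * (k * (Nat.sqrt N * (Nat.log 2 (3 * N) + 1)) : ℕ) ≤ ε * N := by
  filter_upwards [log_pow_le (2 ^ k * (k * 5) / ε) (k + 1) (1 / 2) (by norm_num), log_tendsto.eventually_ge_atTop 1, eventually_ge_atTop 3] with N h1 h2 h3
  have hN3 : (3 : ℝ) ≤ N := by exact_mod_cast h3
  have hN0 : (0 : ℝ) < N := by linarith
  obtain ⟨L, hL⟩ : ∃ L, L = Real.log N := ⟨_, rfl⟩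
  rw [← hL] at h1 h2
  have hL0 : 0 < L := by linarith
  have hhalf : (N : ℝ) ^ (1 / 2 : ℝ) = √(N : ℝ) := by rw [Real.sqrt_eq_rpow]
  rw [hhalf] at h1
  have hsq : √(N : ℝ) * √(N : ℝ) = N := Real.mul_self_sqrt hN0.le
  have hs0 : 0 < √(N : ℝ) := Real.sqrt_pos.2 hN0
  have g1 : Real.log (3 * N) ≤ 2 * L := by
    rw [hL, Real.log_mul (by norm_num) (by linarith)]
    have := Real.log_le_log (by norm_num) hN3
    linarith
  have g0 : 0 ≤ Real.log (3 * (N : ℝ)) := Real.log_nonneg (by linarith)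
  have g2 : ((Nat.log 2 (3 * N) + 1 : ℕ) : ℝ) ≤ 5 * L := by
    have := natlog_le (N := 3 * N) (by omega)
    push_cast at this ⊢
    linarith
  have g3 : ((Nat.sqrt N : ℕ) : ℝ) ≤ √(N : ℝ) := Real.nat_sqrt_le_real_sqrt
  calc Real.log (3 * N) ^ k * (k * (Nat.sqrt N * (Nat.log 2 (3 * N) + 1)) : ℕ) =
        Real.log (3 * N) ^ k * (k * (((Nat.sqrt N : ℕ) : ℝ) * ((Nat.log 2 (3 * N) + 1 : ℕ) : ℝ))) := by push_cast; ring
    _ ≤ (2 * L) ^ k * (k * (√(N : ℝ) * (5 * L))) := by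
        apply mul_le_mul (pow_le_pow_left₀ g0 g1 _) _ (by positivity) (by positivity)
        apply mul_le_mul_of_nonneg_left _ (by positivity)
        exact mul_le_mul g3 g2 (by positivity) hs0.le
    _ = ε * ((2 ^ k * (k * 5) / ε * L ^ (k + 1)) * √(N : ℝ)) := by
        rw [mul_pow, pow_succ]
        field_simp
    _ ≤ ε * (√(N : ℝ) * √(N : ℝ)) := by
        apply mul_le_mul_of_nonneg_left _ hε.le
        exact mul_le_mul_of_nonneg_right h1 hs0.le
    _ = ε * N := by rw [hsq]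

/-- the sums with the products of von Mangoldt functions -/
theorem tupr (k D : ℕ) (hk : 1 ≤ k) (θ : ℝ) (hθ1 : 1 / 2 < θ) (hθ2 : θ < 1) (ε : ℝ) (hε : 0 < ε) :
    ∃ A N₀ : ℕ, ∀ N : ℕ, N₀ ≤ N → ∃ P : Finset ℕ,
      (∀ H : ℕ, Real.log N ^ ((k : ℝ) * θ) ≤ H → ∀ S : Finset ℕ, S ⊆ Icc 1 H →
        ∀ a : Fin k → ℕ, Function.Injective a → (∀ i, a i ≤ 2 * N) → (∀ i j, a i ≤ a j + D) →
        ∀ u : ℕ → ℝ, (∀ n, 0 ≤ u n) → (∀ n, u n ≤ 1) → ∀ B : ℕ, B + H ≤ 2 * N →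
        ∑ h ∈ S, ∑ n ∈ Ioc 0 N, Lk a n * u n * z0 P (n + (B + h)) ≤
          (1 - θ) / θ * (S.card * ∑ n ∈ Ioc 0 N, Lk a n * u n) + ε * (H * N)) ∧
      ∀ F : ℕ → ℝ, RMul F → FarR A N F →
      ∀ H : ℕ, Real.log N ^ ((k : ℝ) * θ) ≤ H → ∀ S : Finset ℕ, S ⊆ Icc 1 H →
      ∀ a : Fin k → ℕ, Function.Injective a → (∀ i, a i ≤ 2 * N) → (∀ i j, a i ≤ a j + D) →
      ∀ B : ℕ, B + H ≤ 2 * N → ∀ b : ℕ → ℂ, (∀ n, ‖b n‖ ≤ 1) → ∀ X : ℕ → ℕ, (∀ h, X h ≤ N) →
      ∑ h ∈ S, ‖∑ n ∈ Ioc 0 (X h), b n * (Lk a n : ℂ) * (F (n + (B + h)) : ℂ)‖ ≤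
        ∑ h ∈ S, ∑ n ∈ Ioc 0 N, Lk a n * (z0 P (n + (B + h)) * |F (n + (B + h))|) + ε * (H * N) := by
  classical
  obtain ⟨K, hK1, hK⟩ := kf_ex k hk
  have h4k : (0 : ℝ) < 4 ^ k := by positivity
  obtain ⟨α, β, hα, hαβ, hβ, A, N₁, h1⟩ := realr k D hk K hK θ hθ1 hθ2 (ε / (2 * 4 ^ k)) (by positivity)
  obtain ⟨N₂, h2⟩ := eventually_atTop.1 ((err_sqrt k (ε / 2) (by positivity)).and (log_sqrt.and (loglog_small K)))
  refine ⟨A, N₁ ^ 2 + N₁ + N₂ + 27, fun N hN => ?_⟩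
  obtain ⟨e1, e2, e3⟩ := h2 N (by omega)
  obtain ⟨z, hz⟩ : ∃ z, z = Nat.sqrt N := ⟨_, rfl⟩
  rw [← hz] at e1 e2
  have hz1 : N₁ ≤ z := by
    rw [hz, Nat.le_sqrt]
    have : N₁ ^ 2 = N₁ * N₁ := by ring
    omega
  have hz2 : 2 ≤ z := by
    rw [hz, Nat.le_sqrt]
    omega
  have hzN : z ≤ N := by rw [hz]; exact Nat.sqrt_le_self N
  have hN0 : (0 : ℝ) < N := by exact_mod_cast (by omega : 0 < N)
  have hlogz : Real.log z ≤ Real.log N := by
    apply Real.log_le_log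
    · exact_mod_cast (by omega : 0 < z)
    · exact_mod_cast hzN
  have hlogz0 : 0 ≤ Real.log z := Real.log_natCast_nonneg z
  obtain ⟨hsift, hmain⟩ := h1 N (by omega) z hz1 hzN (e3.trans e2)
  have hkθ : 0 ≤ (k : ℝ) * θ := by positivity
  have hsep : ∀ a : Fin k → ℕ, Function.Injective a → (∀ i j, a i ≤ a j + D) → Sep (fun i => (a i : ℤ)) D := by
    intro a ha1 ha3 i j hij
    refine ⟨fun h => hij (ha1 (by simpa using h)), ?_⟩
    simp only
    have := ha3 i j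
    have := ha3 j i
    rw [abs_le]
    constructor <;> omega
  have hρ0 : 0 ≤ (1 - θ) / θ := div_nonneg (by linarith) (by linarith)
  refine ⟨WH.PP α β z, fun H hH S hS a ha1 ha2 ha3 u hu0 hu1 B hB => ?_, fun F hF hFar H hH S hS a ha1 ha2 ha3 B hB b hb X hX => ?_⟩
  · have hHl : Real.log z ^ ((k : ℝ) * θ) ≤ H := (Real.rpow_le_rpow hlogz0 hlogz hkθ).trans hH
    have hcS : (S.card : ℝ) ≤ H := by
      have := card_le_card hS
      rw [Nat.card_Icc, Nat.add_sub_cancel] at this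
      exact_mod_cast this
    obtain ⟨P, hP⟩ : ∃ P, P = WH.PP α β z := ⟨_, rfl⟩
    rw [← hP] at hsift ⊢
    have g1 := hsift H hHl S hS _ (hsep a ha1 ha3) _ (wl_wt (u := u) (by omega) ha2 hu0 hu1 e2) B hB
    have g2 : ∀ h ∈ S, ∑ n ∈ Ioc 0 N, Lk a n * u n * z0 P (n + (B + h)) ≤
        4 ^ k * ∑ n ∈ Ioc 0 N, wL a z N u n * z0 P (n + (B + h)) + ε / 2 * N := by
      intro h _
      have g3 := (wl_diff (z := z) (u := u) (by omega : 1 ≤ N) ha2 hu1 (fun n => z0 P (n + (B + h))) (fun n => z0_nonneg P _) (fun n => z0_le P _)).trans e1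
      simp only [sub_mul] at g3
      rw [sum_sub_distrib] at g3
      have g4 : ∑ n ∈ Ioc 0 N, 4 ^ k * wL a z N u n * z0 P (n + (B + h)) = 4 ^ k * ∑ n ∈ Ioc 0 N, wL a z N u n * z0 P (n + (B + h)) := by
        rw [mul_sum]
        apply sum_congr rfl
        intro n _
        ring
      rw [g4] at g3
      linarith
    have g5 := sum_le_sum g2
    rw [sum_add_distrib, sum_const, nsmul_eq_mul, ← mul_sum] at g5
    have g6 : 4 ^ k * Tw (wL a z N u) N ≤ ∑ n ∈ Ioc 0 N, Lk a n * u n := by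
      unfold Tw
      rw [mul_sum]
      apply sum_le_sum
      intro n _
      exact wl_le hu0 n
    have g7 : 4 ^ k * ((1 - θ) / θ * (S.card * Tw (wL a z N u) N) + ε / (2 * 4 ^ k) * (H * N)) ≤
        (1 - θ) / θ * (S.card * ∑ n ∈ Ioc 0 N, Lk a n * u n) + ε / 2 * (H * N) := by
      have a1 : 4 ^ k * (ε / (2 * 4 ^ k) * (H * N)) = ε / 2 * (H * N) := by field_simp
      have a2 := mul_le_mul_of_nonneg_left g6 (show 0 ≤ (1 - θ) / θ * S.card by positivity)
      calc 4 ^ k * ((1 - θ) / θ * (S.card * Tw (wL a z N u) N) + ε / (2 * 4 ^ k) * (H * N)) =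
            (1 - θ) / θ * S.card * (4 ^ k * Tw (wL a z N u) N) + 4 ^ k * (ε / (2 * 4 ^ k) * (H * N)) := by ring
        _ ≤ (1 - θ) / θ * S.card * (∑ n ∈ Ioc 0 N, Lk a n * u n) + ε / 2 * (H * N) := by
            rw [a1]
            linarith
        _ = _ := by ring
    have g8 := mul_le_mul_of_nonneg_left g1 h4k.le
    have g9 : (S.card : ℝ) * (ε / 2 * N) ≤ ε / 2 * (H * N) := by
      calc (S.card : ℝ) * (ε / 2 * N) ≤ H * (ε / 2 * N) := mul_le_mul_of_nonneg_right hcS (by positivity)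
        _ = _ := by ring
    linarith
  · have hHl : Real.log z ^ ((k : ℝ) * θ) ≤ H := (Real.rpow_le_rpow hlogz0 hlogz hkθ).trans hH
    have hcS : (S.card : ℝ) ≤ H := by
      have := card_le_card hS
      rw [Nat.card_Icc, Nat.add_sub_cancel] at this
      exact_mod_cast this
    obtain ⟨P, hP⟩ : ∃ P, P = WH.PP α β z := ⟨_, rfl⟩
    rw [← hP] at hmain ⊢
    obtain ⟨u, hu⟩ : ∃ u : ℕ → ℝ, u = fun _ => 1 := ⟨_, rfl⟩
    have hu0 : ∀ n, 0 ≤ u n := fun n => by rw [hu]; norm_num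
    have hu1 : ∀ n, u n ≤ 1 := fun n => by rw [hu]
    have g1 := hmain F hF hFar H hHl S hS _ (hsep a ha1 ha3) (fun i => by
      rw [abs_of_nonneg (by positivity)]
      exact_mod_cast ha2 i) _ (wl_wt (u := u) (by omega) ha2 hu0 hu1 e2) B hB b hb X hX
    have g2 : ∀ h ∈ S, ‖∑ n ∈ Ioc 0 (X h), b n * (Lk a n : ℂ) * (F (n + (B + h)) : ℂ)‖ ≤
        4 ^ k * ‖∑ n ∈ Ioc 0 (X h), b n * (wL a z N u n : ℂ) * (F (n + (B + h)) : ℂ)‖ + ε / 2 * N := by
      intro h _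
      have a1 : ∑ n ∈ Ioc 0 (X h), b n * (Lk a n : ℂ) * (F (n + (B + h)) : ℂ) =
          ((4 ^ k : ℝ) : ℂ) * ∑ n ∈ Ioc 0 (X h), b n * (wL a z N u n : ℂ) * (F (n + (B + h)) : ℂ) +
          ∑ n ∈ Ioc 0 (X h), b n * ((Lk a n * u n - 4 ^ k * wL a z N u n : ℝ) : ℂ) * (F (n + (B + h)) : ℂ) := by
        rw [mul_sum, ← sum_add_distrib]
        apply sum_congr rfl
        intro n _
        rw [hu]
        push_cast
        ring
      rw [a1]
      refine (norm_add_le _ _).trans ?_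
      rw [norm_mul, Complex.norm_real, Real.norm_eq_abs, abs_of_pos h4k]
      apply add_le_add le_rfl
      refine le_trans ?_ e1
      have hd0 : ∀ n, 0 ≤ Lk a n * u n - 4 ^ k * wL a z N u n := fun n => by
        have := wl_le (a := a) (z := z) (N := N) hu0 n
        linarith
      have a2 : ‖∑ n ∈ Ioc 0 (X h), b n * ((Lk a n * u n - 4 ^ k * wL a z N u n : ℝ) : ℂ) * (F (n + (B + h)) : ℂ)‖ ≤
          ∑ n ∈ Ioc 0 N, (Lk a n * u n - 4 ^ k * wL a z N u n) * 1 := by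
        refine (norm_sum_le _ _).trans ?_
        refine le_trans (sum_le_sum (g := fun n => (Lk a n * u n - 4 ^ k * wL a z N u n) * 1) ?_) ?_
        · intro n _
          rw [norm_mul, norm_mul, Complex.norm_real, Complex.norm_real, Real.norm_eq_abs, Real.norm_eq_abs, abs_of_nonneg (hd0 n)]
          have := hd0 n
          calc ‖b n‖ * (Lk a n * u n - 4 ^ k * wL a z N u n) * |F (n + (B + h))| ≤ 1 * (Lk a n * u n - 4 ^ k * wL a z N u n) * 1 := by
                apply mul_le_mul _ (hF.abs _) (abs_nonneg _) (by linarith)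
                exact mul_le_mul_of_nonneg_right (hb n) this
            _ = _ := by ring
        · apply sum_le_sum_of_subset_of_nonneg
          · exact Ioc_subset_Ioc_right (hX h)
          · intro n _ _
            exact mul_nonneg (hd0 n) (by norm_num)
      exact a2.trans (wl_diff (z := z) (u := u) (by omega : 1 ≤ N) ha2 hu1 (fun _ => 1) (fun _ => by norm_num) (fun _ => le_rfl))
    have g5 := sum_le_sum g2
    rw [sum_add_distrib, sum_const, nsmul_eq_mul, ← mul_sum] at g5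
    have g8 := mul_le_mul_of_nonneg_left g1 h4k.le
    have g9 : (S.card : ℝ) * (ε / 2 * N) ≤ ε / 2 * (H * N) := by
      calc (S.card : ℝ) * (ε / 2 * N) ≤ H * (ε / 2 * N) := mul_le_mul_of_nonneg_right hcS (by positivity)
        _ = _ := by ring
    have g10 : 4 ^ k * ∑ h ∈ S, ∑ n ∈ Ioc 0 N, wL a z N u n * (z0 P (n + (B + h)) * |F (n + (B + h))|) ≤
        ∑ h ∈ S, ∑ n ∈ Ioc 0 N, Lk a n * (z0 P (n + (B + h)) * |F (n + (B + h))|) := by
      rw [mul_sum]
      apply sum_le_sum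
      intro h _
      rw [mul_sum]
      apply sum_le_sum
      intro n _
      rw [← mul_assoc]
      apply mul_le_mul_of_nonneg_right _ (mul_nonneg (z0_nonneg P _) (abs_nonneg _))
      have := wl_le (a := a) (z := z) (N := N) hu0 n
      rw [hu] at this ⊢
      simp only [mul_one] at this
      exact this
    have g11 : 4 ^ k * (ε / (2 * 4 ^ k) * ((H : ℝ) * N)) = ε / 2 * (H * N) := by field_simp
    rw [mul_add, g11] at g8
    linarith

/-- the Liouville function over arbitrary sets of shifts -/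
theorem tup_lam (k D : ℕ) (hk : 1 ≤ k) (θ : ℝ) (hθ1 : 1 / 2 < θ) (hθ2 : θ < 1) (ε : ℝ) (hε : 0 < ε) :
    ∃ N₀ : ℕ, ∀ N : ℕ, N₀ ≤ N → ∀ H : ℕ, Real.log N ^ ((k : ℝ) * θ) ≤ H → ∀ S : Finset ℕ, S ⊆ Icc 1 H →
      ∀ a : Fin k → ℕ, Function.Injective a → (∀ i, a i ≤ 2 * N) → (∀ i j, a i ≤ a j + D) →
      ∀ B : ℕ, B + H ≤ 2 * N → ∀ b : ℕ → ℂ, (∀ n, ‖b n‖ ≤ 1) → ∀ X : ℕ → ℕ, (∀ h, X h ≤ N) →
      ∑ h ∈ S, ‖∑ n ∈ Ioc 0 (X h), b n * (Lk a n : ℂ) * (lamR (n + (B + h)) : ℂ)‖ ≤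
        (1 - θ) / θ * (S.card * ∑ n ∈ Ioc 0 N, Lk a n) + ε * (H * N) := by
  obtain ⟨A, N₁, h1⟩ := tupr k D hk θ hθ1 hθ2 (ε / 2) (by positivity)
  obtain ⟨N₂, h2⟩ := far_neg A
  refine ⟨N₁ + N₂, fun N hN H hH S hS a ha1 ha2 ha3 B hB b hb X hX => ?_⟩
  obtain ⟨P, hsift, hmain⟩ := h1 N (by omega)
  have g1 := hmain lamR lamR_rmul (h2 N (by omega) lamR (fun p hp => lamR_prime hp)) H hH S hS a ha1 ha2 ha3 B hB b hb X hX
  have g2 := hsift H hH S hS a ha1 ha2 ha3 (fun _ => 1) (fun _ => by norm_num) (fun _ => le_rfl) B hB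
  simp only [mul_one] at g2
  have g3 : ∀ n, |lamR n| = 1 := by
    intro n
    unfold lamR
    rw [abs_pow, abs_neg, abs_one, one_pow]
  simp only [g3, mul_one] at g1
  linarith

end Pool.Agent.H617.WR
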