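import Mathlib
import Pool.Agent.H617.WR.H
import Pool.Agent.H617.WH.Mu

set_option autoImplicit false

/-! The Moebius function at shifted primes over arbitrary sets of shifts. -/

namespace Pool.Agent.H617.WR
open Finset Filter Topology
open Pool.Agent.H617.WH
open Pool.Agent.H617.WK
open Pool.Agent.H373R2.T7 (ev_L')

lemma lk_one (a n : ℕ) : Lk (fun _ : Fin 1 => a) n = ArithmeticFunction.vonMangoldt (n + a) := by
  unfold Lk
  rw [Fin.prod_univ_one]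

lemma am_muR (k : ℕ) : am k = |muR k| := rfl

lemma am_Ws (D k : ℕ) : am k ≤ Ws (qd D) (cd D) k := by
  by_cases hs : Squarefree k
  · rw [am_sq hs]
    unfold Ws
    rw [if_pos]
    rw [mem_cd]
    intro r hr h2
    have h3 := hs r (by rw [← pow_two]; exact h2)
    exact (mem_pr.1 hr).1.one_lt.ne' (Nat.isUnit_iff.1 h3)
  · rw [am_nsq hs]
    exact Ws_nonneg _ _ _

/-- the sums over the classes -/
lemma classes (Q : ℕ) (hQ : 1 ≤ Q) (C : Finset ℕ) (N t : ℕ) (S : Finset ℕ) (L : ℕ → ℝ) (v : ℕ → ℝ) :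
    ∑ h ∈ S, ∑ n ∈ Ioc 0 N, L n * (v (n + (t + h)) * Ws Q C (n + (t + h))) =
      ∑ c ∈ range Q, ∑ h ∈ S.filter (fun h => (c + (t + h)) % Q ∈ C), ∑ n ∈ Ioc 0 N, L n * (if n % Q = c then 1 else 0) * v (n + (t + h)) := by
  classical
  have h1 : ∀ c ∈ range Q, ∑ h ∈ S.filter (fun h => (c + (t + h)) % Q ∈ C), ∑ n ∈ Ioc 0 N, L n * (if n % Q = c then 1 else 0) * v (n + (t + h)) =
      ∑ h ∈ S, ∑ n ∈ Ioc 0 N, (if n % Q = c then L n * (v (n + (t + h)) * Ws Q C (n + (t + h))) else 0) := by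
    intro c hc
    rw [mem_range] at hc
    rw [sum_filter]
    apply sum_congr rfl
    intro h _
    have e : ∀ n, n % Q = c → (n + (t + h)) % Q = (c + (t + h)) % Q := by
      intro n hn
      rw [← hn, Nat.mod_add_mod]
    split_ifs with q
    · apply sum_congr rfl
      intro n _
      split_ifs with r
      · unfold Ws
        rw [e n r, if_pos q]
        ring
      · ring
    · symm
      apply sum_eq_zero
      intro n _
      split_ifs with r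
      · unfold Ws
        rw [e n r, if_neg q]
        ring
      · rfl
  rw [sum_congr rfl h1]
  symm
  rw [sum_comm]
  apply sum_congr rfl
  intro h _
  rw [sum_comm]
  apply sum_congr rfl
  intro n _
  rw [sum_ite_eq (range Q) (n % Q), if_pos (mem_range.2 (Nat.mod_lt _ hQ))]

theorem mu1 (θ : ℝ) (hθ1 : 1 / 2 < θ) (hθ2 : θ < 1) (ε : ℝ) (hε : 0 < ε) :
    ∃ N₀ : ℕ, ∀ N : ℕ, N₀ ≤ N → ∀ H : ℕ, Real.log N ^ θ ≤ H → H ≤ N → ∀ S : Finset ℕ, S ⊆ Icc 1 H →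
      ∀ a : ℕ, a ≤ N → ∀ B : ℕ, B ≤ N → ∀ b : ℕ → ℂ, (∀ n, ‖b n‖ ≤ 1) → ∀ X : ℕ → ℕ, (∀ h, X h ≤ N) →
      ∑ h ∈ S, ‖∑ n ∈ Ioc 0 (X h), b n * (ArithmeticFunction.vonMangoldt (n + a) : ℂ) * (muR (n + (B + h)) : ℂ)‖ ≤
        (1 - θ) / θ * ∑ h ∈ S, ∑ n ∈ Ioc 0 N, ArithmeticFunction.vonMangoldt (n + a) * am (n + (B + h)) + ε * (H * N) := by
  classical
  obtain ⟨D₀, hD₀⟩ := exists_nat_ge (8 / ε)
  obtain ⟨D, hD⟩ : ∃ D, D = D₀ + 1 := ⟨_, rfl⟩
  have hD1 : 1 ≤ D := by omega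
  have hD0 : (0 : ℝ) < D := by exact_mod_cast hD1
  have hDr : 8 / ε ≤ D := by
    rw [hD]
    push_cast
    linarith
  obtain ⟨Q, hQ⟩ : ∃ Q, Q = qd D := ⟨_, rfl⟩
  obtain ⟨C, hC⟩ : ∃ C, C = cd D := ⟨_, rfl⟩
  have hQ1 : 1 ≤ Q := by rw [hQ]; exact qd_pos D
  have hQ0 : (0 : ℝ) < Q := by exact_mod_cast hQ1
  obtain ⟨ε', hε'⟩ : ∃ ε' : ℝ, ε' = ε / (4 * Q) := ⟨_, rfl⟩
  have hε'0 : 0 < ε' := by rw [hε']; positivity
  have hε'1 : ε' ≤ ε / 4 := by
    rw [hε']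
    apply div_le_div_of_nonneg_left hε.le (by norm_num)
    have : (1 : ℝ) ≤ Q := by exact_mod_cast hQ1
    linarith
  obtain ⟨A, N₁, h1⟩ := tupr 1 0 le_rfl θ hθ1 hθ2 ε' hε'0
  obtain ⟨N₂, h2⟩ := far_neg A
  obtain ⟨N₃, h3⟩ := gap D hD1
  obtain ⟨N₄, h4⟩ := ev_L' (24 / ε)
  refine ⟨N₁ + N₂ + N₃ + N₄ + 3, fun N hN H hH hHN S hS a ha B hB b hb X hX => ?_⟩
  have hN0 : (0 : ℝ) < N := by exact_mod_cast (by omega : 0 < N)
  have hH0 : (0 : ℝ) ≤ H := Nat.cast_nonneg _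
  have hL := h4 N (by omega)
  obtain ⟨P, hsift, hmain⟩ := h1 N (by omega)
  have hH' : Real.log N ^ (((1 : ℕ) : ℝ) * θ) ≤ H := by rw [Nat.cast_one, one_mul]; exact hH
  have hinj : Function.Injective (fun _ : Fin 1 => a) := fun i j _ => Subsingleton.elim i j
  have g1 := hmain muR muR_rmul (h2 N (by omega) muR (fun p hp => muR_prime hp)) H hH' S hS (fun _ => a) hinj
    (fun _ => by omega) (fun _ _ => le_rfl) B (by omega) b hb X hX
  simp only [lk_one] at g1 hsift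
  refine g1.trans ?_
  obtain ⟨Λ, hΛ⟩ : ∃ Λ : ℕ → ℝ, Λ = fun n => ArithmeticFunction.vonMangoldt (n + a) := ⟨_, rfl⟩
  have hΛ0 : ∀ n, 0 ≤ Λ n := fun n => by rw [hΛ]; exact ArithmeticFunction.vonMangoldt_nonneg
  have hΛe : ∀ n, ArithmeticFunction.vonMangoldt (n + a) = Λ n := fun n => by rw [hΛ]
  simp only [hΛe]
  have k1 : ∑ h ∈ S, ∑ n ∈ Ioc 0 N, Λ n * (z0 P (n + (B + h)) * |muR (n + (B + h))|) ≤
      ∑ h ∈ S, ∑ n ∈ Ioc 0 N, Λ n * (z0 P (n + (B + h)) * Ws Q C (n + (B + h))) := by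
    apply sum_le_sum
    intro h _
    apply sum_le_sum
    intro n _
    apply mul_le_mul_of_nonneg_left _ (hΛ0 n)
    apply mul_le_mul_of_nonneg_left _ (z0_nonneg P _)
    rw [← am_muR, hQ, hC]
    exact am_Ws D _
  have k2 : ∑ h ∈ S, ∑ n ∈ Ioc 0 N, Λ n * (z0 P (n + (B + h)) * Ws Q C (n + (B + h))) ≤
      (1 - θ) / θ * ∑ h ∈ S, ∑ n ∈ Ioc 0 N, Λ n * Ws Q C (n + (B + h)) + ε / 4 * (H * N) := by
    rw [classes Q hQ1 C N B S Λ (z0 P)]
    have q1 : ∀ c ∈ range Q, ∑ h ∈ S.filter (fun h => (c + (B + h)) % Q ∈ C), ∑ n ∈ Ioc 0 N, Λ n * (if n % Q = c then 1 else 0) * z0 P (n + (B + h)) ≤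
        (1 - θ) / θ * (((S.filter (fun h => (c + (B + h)) % Q ∈ C)).card : ℝ) * ∑ n ∈ Ioc 0 N, Λ n * (if n % Q = c then 1 else 0)) + ε' * (H * N) := by
      intro c _
      have := hsift H hH' (S.filter (fun h => (c + (B + h)) % Q ∈ C)) ((filter_subset _ _).trans hS) (fun _ => a) hinj
        (fun _ => by omega) (fun _ _ => le_rfl) (fun n => if n % Q = c then 1 else 0) (fun n => by positivity)
        (fun n => by split_ifs <;> norm_num) B (by omega)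
      simp only [lk_one, hΛe] at this
      exact this
    refine (sum_le_sum q1).trans ?_
    rw [sum_add_distrib, sum_const, card_range, nsmul_eq_mul, ← mul_sum]
    have q2 : (Q : ℝ) * (ε' * (H * N)) = ε / 4 * (H * N) := by
      rw [hε']
      field_simp
    rw [q2]
    apply add_le_add _ le_rfl
    apply le_of_eq
    congr 1
    have q3 := classes Q hQ1 C N B S Λ (fun _ => 1)
    simp only [one_mul, mul_one] at q3
    rw [q3]
    apply sum_congr rfl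
    intro c _
    rw [sum_const, nsmul_eq_mul]
  have k3 : ∑ h ∈ S, ∑ n ∈ Ioc 0 N, Λ n * Ws Q C (n + (B + h)) ≤ ∑ h ∈ S, ∑ n ∈ Ioc 0 N, Λ n * am (n + (B + h)) + ε / 2 * (H * N) := by
    have q1 : ∀ h ∈ S, ∑ n ∈ Ioc 0 N, Λ n * Ws Q C (n + (B + h)) ≤ ∑ n ∈ Ioc 0 N, Λ n * am (n + (B + h)) + ε / 2 * N := by
      intro h hh
      have hh := mem_Icc.1 (hS hh)
      have g := h3 N (by omega) a (B + h) ha (by omega)
      simp only [hΛe] at g
      rw [← hQ, ← hC] at g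
      have e : ∑ n ∈ Ioc 0 N, Λ n * Ws Q C (n + (B + h)) = ∑ n ∈ Ioc 0 N, Ws Q C (n + (B + h)) * Λ n := by
        apply sum_congr rfl
        intro n _
        ring
      rw [e]
      refine g.trans (add_le_add le_rfl ?_)
      have i1 : 2 / (D : ℝ) ≤ ε / 4 := by
        rw [div_le_iff₀ hD0]
        rw [div_le_iff₀ hε] at hDr
        linarith
      have hL0 : 0 < Real.log N := lt_of_lt_of_le (by positivity) hL
      have i2 : 6 / Real.log N ≤ ε / 4 := by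
        rw [div_le_iff₀ hL0]
        rw [div_le_iff₀ hε] at hL
        linarith
      calc (N : ℝ) * (2 / D + 6 / Real.log N) ≤ N * (ε / 4 + ε / 4) := mul_le_mul_of_nonneg_left (add_le_add i1 i2) hN0.le
        _ = _ := by ring
    refine (sum_le_sum q1).trans ?_
    rw [sum_add_distrib, sum_const, nsmul_eq_mul]
    apply add_le_add le_rfl
    have hcS : (S.card : ℝ) ≤ H := by
      have := card_le_card hS
      rw [Nat.card_Icc, Nat.add_sub_cancel] at this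
      exact_mod_cast this
    calc (S.card : ℝ) * (ε / 2 * N) ≤ H * (ε / 2 * N) := mul_le_mul_of_nonneg_right hcS (by positivity)
      _ = _ := by ring
  have hρ0 : 0 ≤ (1 - θ) / θ := div_nonneg (by linarith) (by linarith)
  have hρ1 : (1 - θ) / θ ≤ 1 := by rw [div_le_one (by linarith)]; linarith
  have k4 := mul_le_mul_of_nonneg_left k3 hρ0
  have k5 : (1 - θ) / θ * (ε / 2 * ((H : ℝ) * N)) ≤ ε / 2 * (H * N) := mul_le_of_le_one_left (by positivity) hρ1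
  have k6 : ε' * ((H : ℝ) * N) ≤ ε / 4 * (H * N) := mul_le_mul_of_nonneg_right hε'1 (by positivity)
  linarith

end Pool.Agent.H617.WR
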