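import Mathlib
import Pool.Agent.H617.WR.L
import Pool.Agent.H617.WR.G
import Pool.Agent.H617.WR.K
import Pool.Agent.H617.WQ.G

set_option autoImplicit false

/-! Sums `p + m` of a prime and an integer: arbitrary sets of sums in a window. -/

namespace Pool.Agent.H617.WR
open Finset Filter Topology
open Pool.Agent.H373R2.T7 (exI liR)
open Pool.Agent.E8helper16.SL
open Pool.Agent.H617.WH
open Pool.Agent.H617.WK
open Pool.Agent.H617.WN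
open Pool.Agent.H617.WQ (sgd ttl ttl_nonneg wg ph ph_le wt_wg tw_wg sgd_le small_err log_sqrt loglog_small)

/-- the sum over the primes between `Y` and `M` -/
noncomputable def sgY (b : ℕ → ℂ) (Y M : ℕ) : ℂ :=
  ∑ p ∈ (Ico Y M).filter Nat.Prime, b p * (Real.log p : ℂ) * (-1 : ℂ) ^ (ArithmeticFunction.cardFactors (M - p))

/-- the cut weights -/
noncomputable def cutb (b : ℕ → ℂ) (Y p : ℕ) : ℂ := if Y ≤ p then b p else 0

lemma cutb_le {b : ℕ → ℂ} (hb : ∀ p, ‖b p‖ ≤ 1) (Y p : ℕ) : ‖cutb b Y p‖ ≤ 1 := by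
  unfold cutb
  split_ifs
  · exact hb p
  · simp

lemma sgY_eq (b : ℕ → ℂ) (Y M : ℕ) : sgY b Y M = sgd (cutb b Y) M := by
  unfold sgY sgd
  rw [sum_filter, sum_filter]
  have hsub : Ico Y M ⊆ range M := by
    intro p hp
    rw [mem_Ico] at hp
    exact mem_range.2 hp.2
  rw [← sum_subset hsub]
  · apply sum_congr rfl
    intro p hp
    rw [mem_Ico] at hp
    unfold cutb
    rw [if_pos hp.1]
  · intro p hp1 hp2
    rw [mem_range] at hp1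
    rw [mem_Ico] at hp2
    unfold cutb
    rw [if_neg (show ¬ Y ≤ p by omega)]
    simp

lemma sw_cut (b : ℕ → ℂ) (z M₀ N Y t : ℕ) (hM : M₀ ≤ N) :
    Sw (exI liR) (wg (cutb b Y) z M₀) (ph (cutb b Y) M₀) N t =
      ∑ n ∈ Ioc 0 (M₀ - Y), ph b M₀ n * (wg b z M₀ n : ℂ) * (lamR (n + t) : ℂ) := by
  unfold Sw
  have hsub : Ioc 0 (M₀ - Y) ⊆ Ioc 0 N := Ioc_subset_Ioc_right (by omega)
  rw [← sum_subset hsub]
  · apply sum_congr rfl
    intro n hn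
    rw [mem_Ioc] at hn
    have e1 : exI liR ((n + t : ℕ) : ℤ) = (lamR (n + t) : ℂ) := by
      have := lz_nat (n + t) (by omega)
      unfold lamR
      push_cast at this ⊢
      exact this
    rw [e1]
    have e2 : cutb b Y (M₀ - n) = b (M₀ - n) := by
      unfold cutb
      rw [if_pos (by omega)]
    unfold wg ph
    rw [e2]
  · intro n hn1 hn2
    rw [mem_Ioc] at hn1 hn2
    by_cases h1 : n < M₀
    · have e2 : cutb b Y (M₀ - n) = 0 := by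
        unfold cutb
        rw [if_neg (by omega)]
      unfold wg
      rw [if_pos h1, e2]
      simp
    · unfold wg
      rw [if_neg h1]
      simp

lemma sgY_le {b : ℕ → ℂ} (hb : ∀ p, ‖b p‖ ≤ 1) (z M₀ N h Y : ℕ) (hM : M₀ + h ≤ N) :
    ‖sgY b Y (M₀ + h)‖ ≤ 3 * ‖∑ n ∈ Ioc 0 (M₀ - Y), ph b M₀ n * (wg b z M₀ n : ℂ) * (lamR (n + (0 + h)) : ℂ)‖ + (z + 1 + h) * Real.log N := by
  rw [sgY_eq, ← sw_cut b z M₀ N Y (0 + h) (by omega)]
  exact sgd_le (cutb_le hb Y) z M₀ N h hM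

theorem goldr0 (θ : ℝ) (hθ1 : 1 / 2 < θ) (hθ2 : θ < 1) (ε : ℝ) (hε : 0 < ε) :
    ∃ N₀ : ℕ, ∀ N : ℕ, N₀ ≤ N → ∀ H : ℕ, Real.log N ^ θ ≤ H → (H : ℝ) ≤ Real.log N ^ 2 → ∀ M₀ : ℕ, M₀ + H ≤ N →
      ∀ b : ℕ → ℂ, (∀ p, ‖b p‖ ≤ 1) → ∀ S : Finset ℕ, S ⊆ Icc 1 H → ∀ Y : ℕ → ℕ,
      ∑ h ∈ S, ‖sgY b (Y h) (M₀ + h)‖ ≤ ∑ h ∈ S, (1 - θ) / θ * ttl b (M₀ + h) + ε * N * H := by
  classical
  obtain ⟨K, hK1, hK⟩ := kf_ex 1 le_rfl
  obtain ⟨α, β, hα, hαβ, hβ, A, N₁, h1⟩ := realr 1 0 le_rfl K hK θ hθ1 hθ2 (ε / 12) (by positivity)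
  obtain ⟨N₃, h3⟩ := far_neg A
  obtain ⟨N₂, h2⟩ := eventually_atTop.1 ((small_err (ε / 2) (by positivity)).and (log_sqrt.and (loglog_small K)))
  refine ⟨N₁ ^ 2 + N₁ + N₂ + N₃ + 4, fun N hN H hH1 hH2 M₀ hM b hb S hS Y => ?_⟩
  obtain ⟨e1, e2, e3⟩ := h2 N (by omega)
  obtain ⟨z, hz⟩ : ∃ z, z = Nat.sqrt N := ⟨_, rfl⟩
  rw [← hz] at e1 e2
  have hz1 : N₁ ≤ z := by
    rw [hz, Nat.le_sqrt]
    have : N₁ ^ 2 = N₁ * N₁ := by ring
    omega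
  have hz2 : 2 ≤ z := by
    rw [hz, Nat.le_sqrt]
    omega
  have hzN : z ≤ N := by rw [hz]; exact Nat.sqrt_le_self N
  have hN0 : (0 : ℝ) < N := by exact_mod_cast (by omega : 0 < N)
  have hlogz : Real.log z ≤ Real.log N := by
    apply Real.log_le_log
    · exact_mod_cast (by omega : 0 < z)
    · exact_mod_cast hzN
  have hlogz0 : 0 ≤ Real.log z := Real.log_natCast_nonneg z
  have hlogN0 : 0 ≤ Real.log N := Real.log_natCast_nonneg N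
  have hsep : Sep (fun _ : Fin 1 => -(M₀ : ℤ)) 0 := by
    intro i j hij
    exact absurd (Subsingleton.elim i j) hij
  have hHl : Real.log z ^ (((1 : ℕ) : ℝ) * θ) ≤ H := by
    rw [Nat.cast_one, one_mul]
    exact (Real.rpow_le_rpow hlogz0 hlogz (by linarith)).trans hH1
  obtain ⟨hsift, hmain⟩ := h1 N (by omega) z hz1 hzN (e3.trans e2)
  have hwt := wt_wg hb (show M₀ ≤ N by omega) e2
  have k1 := hsift H hHl S hS _ hsep _ hwt 0 (by omega)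
  have k2 := hmain lamR lamR_rmul (h3 N (by omega) lamR (fun p hp => lamR_prime hp)) H hHl S hS _ hsep
    (by intro i; rw [abs_neg, abs_of_nonneg (by positivity)]; omega) _ hwt 0 (by omega) (ph b M₀) (ph_le b M₀)
    (fun h => M₀ - Y h) (fun h => by omega)
  have g3 : ∀ n, |lamR n| = 1 := by
    intro n
    unfold lamR
    rw [abs_pow, abs_neg, abs_one, one_pow]
  simp only [g3, mul_one] at k2
  have hSc : (S.card : ℝ) ≤ H := by
    have := card_le_card hS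
    rw [Nat.card_Icc, Nat.add_sub_cancel] at this
    exact_mod_cast this
  have hSc0 : (0 : ℝ) ≤ S.card := Nat.cast_nonneg _
  obtain ⟨T, hT⟩ : ∃ T, T = Tw (wg b z M₀) N := ⟨_, rfl⟩
  rw [← hT] at k1
  have h3 : ∀ h ∈ S, ‖sgY b (Y h) (M₀ + h)‖ ≤ 3 * ‖∑ n ∈ Ioc 0 (M₀ - Y h), ph b M₀ n * (wg b z M₀ n : ℂ) * (lamR (n + (0 + h)) : ℂ)‖ + ε / 2 * N := by
    intro h hh
    have hh' := hS hh
    rw [mem_Icc] at hh'
    refine (sgY_le hb z M₀ N h (Y h) (by omega)).trans (add_le_add le_rfl ?_)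
    refine le_trans ?_ e1
    apply mul_le_mul_of_nonneg_right _ hlogN0
    have : (h : ℝ) ≤ H := by exact_mod_cast hh'.2
    linarith
  have h4 := sum_le_sum h3
  rw [sum_add_distrib, ← mul_sum, sum_const, nsmul_eq_mul] at h4
  have h5 : 3 * (S.card * T) ≤ ∑ h ∈ S, ttl b (M₀ + h) := by
    have : ∀ h ∈ S, 3 * T ≤ ttl b (M₀ + h) := by
      intro h _
      rw [hT]
      exact tw_wg b z M₀ N (M₀ + h) (by omega) (by omega)
    have g := sum_le_sum this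
    rw [sum_const, nsmul_eq_mul] at g
    linarith
  have h6 : (S.card : ℝ) * (ε / 2 * N) ≤ ε / 2 * (H * N) := by
    calc (S.card : ℝ) * (ε / 2 * N) ≤ H * (ε / 2 * N) := mul_le_mul_of_nonneg_right hSc (by positivity)
      _ = _ := by ring
  have hρ0 : 0 ≤ (1 - θ) / θ := div_nonneg (by linarith) (by linarith)
  have h8 := mul_le_mul_of_nonneg_left h5 hρ0
  rw [← mul_sum]
  linarith

/-- the windows of all lengths -/
theorem goldr (θ : ℝ) (hθ1 : 1 / 2 < θ) (hθ2 : θ < 1) (ε : ℝ) (hε : 0 < ε) :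
    ∃ N₀ : ℕ, ∀ N : ℕ, N₀ ≤ N → ∀ b : ℕ → ℂ, (∀ p, ‖b p‖ ≤ 1) → ∀ H : ℕ, Real.log N ^ θ ≤ H → ∀ M₀ : ℕ, M₀ + H ≤ N →
      ∀ S : Finset ℕ, S ⊆ Icc 1 H → ∀ Y : ℕ → ℕ, (∀ h, Y h ≤ N) →
      ∑ h ∈ S, ‖sgY b (Y h) (M₀ + h)‖ ≤ ∑ h ∈ S, (1 - θ) / θ * ttl b (M₀ + h) + ε * N * H := by
  obtain ⟨N₁, h1⟩ := goldr0 θ hθ1 hθ2 ε hε
  obtain ⟨N₂, h2⟩ := eventually_atTop.1 (log_tendsto.eventually_ge_atTop 4)
  refine ⟨N₁ + N₂, fun N hN b hb H₁ hH₁ M₁ hM₁ S₁ hS₁ Y₁ hY₁ => ?_⟩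
  have hL4 : 4 ≤ Real.log N := h2 N (by omega)
  obtain ⟨L, hL⟩ : ∃ L, L = Real.log N := ⟨_, rfl⟩
  rw [← hL] at hL4 hH₁
  have hL0 : 0 < L := by linarith
  obtain ⟨y, hy⟩ : ∃ y, y = L ^ θ := ⟨_, rfl⟩
  rw [← hy] at hH₁
  have hy1 : 1 ≤ y := by rw [hy]; exact Real.one_le_rpow (by linarith) (by linarith)
  have hyL : y ≤ L := by
    rw [hy]
    calc L ^ θ ≤ L ^ (1 : ℝ) := Real.rpow_le_rpow_of_exponent_le (by linarith) hθ2.le
      _ = L := Real.rpow_one L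
  have hLL : 4 * L ≤ L ^ 2 := by nlinarith
  exact winds (N := N) (R := N) (A := fun Y M => ‖sgY b Y M‖) (C := fun M => (1 - θ) / θ * ttl b M) (y := y) (Lf := L ^ 2)
    (κ := ε * N) hy1 (by linarith) (by
      intro H hH1 hH2 B hB S hS X hX
      exact h1 N (by omega) H (by rw [← hL, ← hy]; exact hH1) (by rw [← hL]; exact hH2) B hB b hb S hS X)
    H₁ hH₁ M₁ hM₁ S₁ hS₁ Y₁ hY₁

end Pool.Agent.H617.WR
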