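import Mathlib
import Pool.Agent.H617.WR.H
import Pool.Agent.H617.WR.K

set_option autoImplicit false

/-! Products of von Mangoldt functions with a further weight. -/

namespace Pool.Agent.H617.WR
open Finset Filter Topology
open Pool.Agent.H373R2.T7 (Vz Vz_pos pz mem_pz exI energy)
open Pool.Agent.E8helper16.SL
open Pool.Agent.H617.WH
open Pool.Agent.H617.WK
open Pool.Agent.H617.WN
open Pool.Agent.H617.WQ (small_err log_sqrt loglog_small)
open Pool.Agent.Helper82K9.EL (RMul FarR dstR famR Sm)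

/-- the sums with the products of von Mangoldt functions and a further weight -/
theorem tupu (k D : ℕ) (hk : 1 ≤ k) (θ : ℝ) (hθ1 : 1 / 2 < θ) (hθ2 : θ < 1) (ε : ℝ) (hε : 0 < ε) :
    ∃ A N₀ : ℕ, ∀ N : ℕ, N₀ ≤ N → ∃ P : Finset ℕ,
      (∀ H : ℕ, Real.log N ^ ((k : ℝ) * θ) ≤ H → ∀ S : Finset ℕ, S ⊆ Icc 1 H →
        ∀ a : Fin k → ℕ, Function.Injective a → (∀ i, a i ≤ 2 * N) → (∀ i j, a i ≤ a j + D) →
        ∀ u : ℕ → ℝ, (∀ n, 0 ≤ u n) → (∀ n, u n ≤ 1) → ∀ B : ℕ, B + H ≤ 2 * N →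
        ∑ h ∈ S, ∑ n ∈ Ioc 0 N, Lk a n * u n * z0 P (n + (B + h)) ≤
          (1 - θ) / θ * (S.card * ∑ n ∈ Ioc 0 N, Lk a n * u n) + ε * (H * N)) ∧
      ∀ F : ℕ → ℝ, RMul F → FarR A N F →
      ∀ H : ℕ, Real.log N ^ ((k : ℝ) * θ) ≤ H → ∀ S : Finset ℕ, S ⊆ Icc 1 H →
      ∀ a : Fin k → ℕ, Function.Injective a → (∀ i, a i ≤ 2 * N) → (∀ i j, a i ≤ a j + D) →
      ∀ u : ℕ → ℝ, (∀ n, 0 ≤ u n) → (∀ n, u n ≤ 1) →
      ∀ B : ℕ, B + H ≤ 2 * N → ∀ b : ℕ → ℂ, (∀ n, ‖b n‖ ≤ 1) → ∀ X : ℕ → ℕ, (∀ h, X h ≤ N) →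
      ∑ h ∈ S, ‖∑ n ∈ Ioc 0 (X h), b n * ((Lk a n * u n : ℝ) : ℂ) * (F (n + (B + h)) : ℂ)‖ ≤
        ∑ h ∈ S, ∑ n ∈ Ioc 0 N, Lk a n * u n * (z0 P (n + (B + h)) * |F (n + (B + h))|) + ε * (H * N) := by
  classical
  obtain ⟨K, hK1, hK⟩ := kf_ex k hk
  have h4k : (0 : ℝ) < 4 ^ k := by positivity
  obtain ⟨α, β, hα, hαβ, hβ, A, N₁, h1⟩ := realr k D hk K hK θ hθ1 hθ2 (ε / (2 * 4 ^ k)) (by positivity)
  obtain ⟨N₂, h2⟩ := eventually_atTop.1 ((err_sqrt k (ε / 2) (by positivity)).and (log_sqrt.and (loglog_small K)))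
  refine ⟨A, N₁ ^ 2 + N₁ + N₂ + 27, fun N hN => ?_⟩
  obtain ⟨e1, e2, e3⟩ := h2 N (by omega)
  obtain ⟨z, hz⟩ : ∃ z, z = Nat.sqrt N := ⟨_, rfl⟩
  rw [← hz] at e1 e2
  have hz1 : N₁ ≤ z := by
    rw [hz, Nat.le_sqrt]
    have : N₁ ^ 2 = N₁ * N₁ := by ring
    omega
  have hz2 : 2 ≤ z := by
    rw [hz, Nat.le_sqrt]
    omega
  have hzN : z ≤ N := by rw [hz]; exact Nat.sqrt_le_self N
  have hN0 : (0 : ℝ) < N := by exact_mod_cast (by omega : 0 < N)
  have hlogz : Real.log z ≤ Real.log N := by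
    apply Real.log_le_log
    · exact_mod_cast (by omega : 0 < z)
    · exact_mod_cast hzN
  have hlogz0 : 0 ≤ Real.log z := Real.log_natCast_nonneg z
  obtain ⟨hsift, hmain⟩ := h1 N (by omega) z hz1 hzN (e3.trans e2)
  have hkθ : 0 ≤ (k : ℝ) * θ := by positivity
  have hsep : ∀ a : Fin k → ℕ, Function.Injective a → (∀ i j, a i ≤ a j + D) → Sep (fun i => (a i : ℤ)) D := by
    intro a ha1 ha3 i j hij
    refine ⟨fun h => hij (ha1 (by simpa using h)), ?_⟩
    simp only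
    have := ha3 i j
    have := ha3 j i
    rw [abs_le]
    constructor <;> omega
  have hρ0 : 0 ≤ (1 - θ) / θ := div_nonneg (by linarith) (by linarith)
  refine ⟨WH.PP α β z, fun H hH S hS a ha1 ha2 ha3 u hu0 hu1 B hB => ?_, fun F hF hFar H hH S hS a ha1 ha2 ha3 u hu0 hu1 B hB b hb X hX => ?_⟩
  · have hHl : Real.log z ^ ((k : ℝ) * θ) ≤ H := (Real.rpow_le_rpow hlogz0 hlogz hkθ).trans hH
    have hcS : (S.card : ℝ) ≤ H := by
      have := card_le_card hS
      rw [Nat.card_Icc, Nat.add_sub_cancel] at this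
      exact_mod_cast this
    obtain ⟨P, hP⟩ : ∃ P, P = WH.PP α β z := ⟨_, rfl⟩
    rw [← hP] at hsift ⊢
    have g1 := hsift H hHl S hS _ (hsep a ha1 ha3) _ (wl_wt (u := u) (by omega) ha2 hu0 hu1 e2) B hB
    have g2 : ∀ h ∈ S, ∑ n ∈ Ioc 0 N, Lk a n * u n * z0 P (n + (B + h)) ≤
        4 ^ k * ∑ n ∈ Ioc 0 N, wL a z N u n * z0 P (n + (B + h)) + ε / 2 * N := by
      intro h _
      have g3 := (wl_diff (z := z) (u := u) (by omega : 1 ≤ N) ha2 hu1 (fun n => z0 P (n + (B + h))) (fun n => z0_nonneg P _) (fun n => z0_le P _)).trans e1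
      simp only [sub_mul] at g3
      rw [sum_sub_distrib] at g3
      have g4 : ∑ n ∈ Ioc 0 N, 4 ^ k * wL a z N u n * z0 P (n + (B + h)) = 4 ^ k * ∑ n ∈ Ioc 0 N, wL a z N u n * z0 P (n + (B + h)) := by
        rw [mul_sum]
        apply sum_congr rfl
        intro n _
        ring
      rw [g4] at g3
      linarith
    have g5 := sum_le_sum g2
    rw [sum_add_distrib, sum_const, nsmul_eq_mul, ← mul_sum] at g5
    have g6 : 4 ^ k * Tw (wL a z N u) N ≤ ∑ n ∈ Ioc 0 N, Lk a n * u n := by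
      unfold Tw
      rw [mul_sum]
      apply sum_le_sum
      intro n _
      exact wl_le hu0 n
    have g7 : 4 ^ k * ((1 - θ) / θ * (S.card * Tw (wL a z N u) N) + ε / (2 * 4 ^ k) * (H * N)) ≤
        (1 - θ) / θ * (S.card * ∑ n ∈ Ioc 0 N, Lk a n * u n) + ε / 2 * (H * N) := by
      have a1 : 4 ^ k * (ε / (2 * 4 ^ k) * (H * N)) = ε / 2 * (H * N) := by field_simp
      have a2 := mul_le_mul_of_nonneg_left g6 (show 0 ≤ (1 - θ) / θ * S.card by positivity)
      calc 4 ^ k * ((1 - θ) / θ * (S.card * Tw (wL a z N u) N) + ε / (2 * 4 ^ k) * (H * N)) =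
            (1 - θ) / θ * S.card * (4 ^ k * Tw (wL a z N u) N) + 4 ^ k * (ε / (2 * 4 ^ k) * (H * N)) := by ring
        _ ≤ (1 - θ) / θ * S.card * (∑ n ∈ Ioc 0 N, Lk a n * u n) + ε / 2 * (H * N) := by
            rw [a1]
            linarith
        _ = _ := by ring
    have g8 := mul_le_mul_of_nonneg_left g1 h4k.le
    have g9 : (S.card : ℝ) * (ε / 2 * N) ≤ ε / 2 * (H * N) := by
      calc (S.card : ℝ) * (ε / 2 * N) ≤ H * (ε / 2 * N) := mul_le_mul_of_nonneg_right hcS (by positivity)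
        _ = _ := by ring
    linarith
  · have hHl : Real.log z ^ ((k : ℝ) * θ) ≤ H := (Real.rpow_le_rpow hlogz0 hlogz hkθ).trans hH
    have hcS : (S.card : ℝ) ≤ H := by
      have := card_le_card hS
      rw [Nat.card_Icc, Nat.add_sub_cancel] at this
      exact_mod_cast this
    obtain ⟨P, hP⟩ : ∃ P, P = WH.PP α β z := ⟨_, rfl⟩
    rw [← hP] at hmain ⊢
    have g1 := hmain F hF hFar H hHl S hS _ (hsep a ha1 ha3) (fun i => by
      rw [abs_of_nonneg (by positivity)]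
      exact_mod_cast ha2 i) _ (wl_wt (u := u) (by omega) ha2 hu0 hu1 e2) B hB b hb X hX
    have g2 : ∀ h ∈ S, ‖∑ n ∈ Ioc 0 (X h), b n * ((Lk a n * u n : ℝ) : ℂ) * (F (n + (B + h)) : ℂ)‖ ≤
        4 ^ k * ‖∑ n ∈ Ioc 0 (X h), b n * (wL a z N u n : ℂ) * (F (n + (B + h)) : ℂ)‖ + ε / 2 * N := by
      intro h _
      have a1 : ∑ n ∈ Ioc 0 (X h), b n * ((Lk a n * u n : ℝ) : ℂ) * (F (n + (B + h)) : ℂ) =
          ((4 ^ k : ℝ) : ℂ) * ∑ n ∈ Ioc 0 (X h), b n * (wL a z N u n : ℂ) * (F (n + (B + h)) : ℂ) +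
          ∑ n ∈ Ioc 0 (X h), b n * ((Lk a n * u n - 4 ^ k * wL a z N u n : ℝ) : ℂ) * (F (n + (B + h)) : ℂ) := by
        rw [mul_sum, ← sum_add_distrib]
        apply sum_congr rfl
        intro n _
        push_cast
        ring
      rw [a1]
      refine (norm_add_le _ _).trans ?_
      rw [norm_mul, Complex.norm_real, Real.norm_eq_abs, abs_of_pos h4k]
      apply add_le_add le_rfl
      refine le_trans ?_ e1
      have hd0 : ∀ n, 0 ≤ Lk a n * u n - 4 ^ k * wL a z N u n := fun n => by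
        have := wl_le (a := a) (z := z) (N := N) hu0 n
        linarith
      have a2 : ‖∑ n ∈ Ioc 0 (X h), b n * ((Lk a n * u n - 4 ^ k * wL a z N u n : ℝ) : ℂ) * (F (n + (B + h)) : ℂ)‖ ≤
          ∑ n ∈ Ioc 0 N, (Lk a n * u n - 4 ^ k * wL a z N u n) * 1 := by
        refine (norm_sum_le _ _).trans ?_
        refine le_trans (sum_le_sum (g := fun n => (Lk a n * u n - 4 ^ k * wL a z N u n) * 1) ?_) ?_
        · intro n _
          rw [norm_mul, norm_mul, Complex.norm_real, Complex.norm_real, Real.norm_eq_abs, Real.norm_eq_abs, abs_of_nonneg (hd0 n)]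
          have := hd0 n
          calc ‖b n‖ * (Lk a n * u n - 4 ^ k * wL a z N u n) * |F (n + (B + h))| ≤ 1 * (Lk a n * u n - 4 ^ k * wL a z N u n) * 1 := by
                apply mul_le_mul _ (hF.abs _) (abs_nonneg _) (by linarith)
                exact mul_le_mul_of_nonneg_right (hb n) this
            _ = _ := by ring
        · apply sum_le_sum_of_subset_of_nonneg
          · exact Ioc_subset_Ioc_right (hX h)
          · intro n _ _
            exact mul_nonneg (hd0 n) (by norm_num)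
      exact a2.trans (wl_diff (z := z) (u := u) (by omega : 1 ≤ N) ha2 hu1 (fun _ => 1) (fun _ => by norm_num) (fun _ => le_rfl))
    have g5 := sum_le_sum g2
    rw [sum_add_distrib, sum_const, nsmul_eq_mul, ← mul_sum] at g5
    have g8 := mul_le_mul_of_nonneg_left g1 h4k.le
    have g9 : (S.card : ℝ) * (ε / 2 * N) ≤ ε / 2 * (H * N) := by
      calc (S.card : ℝ) * (ε / 2 * N) ≤ H * (ε / 2 * N) := mul_le_mul_of_nonneg_right hcS (by positivity)
        _ = _ := by ring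
    have g10 : 4 ^ k * ∑ h ∈ S, ∑ n ∈ Ioc 0 N, wL a z N u n * (z0 P (n + (B + h)) * |F (n + (B + h))|) ≤
        ∑ h ∈ S, ∑ n ∈ Ioc 0 N, Lk a n * u n * (z0 P (n + (B + h)) * |F (n + (B + h))|) := by
      rw [mul_sum]
      apply sum_le_sum
      intro h _
      rw [mul_sum]
      apply sum_le_sum
      intro n _
      rw [← mul_assoc]
      apply mul_le_mul_of_nonneg_right _ (mul_nonneg (z0_nonneg P _) (abs_nonneg _))
      exact wl_le (a := a) (z := z) (N := N) hu0 n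
    have g11 : 4 ^ k * (ε / (2 * 4 ^ k) * ((H : ℝ) * N)) = ε / 2 * (H * N) := by field_simp
    rw [mul_add, g11] at g8
    linarith


end Pool.Agent.H617.WR
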