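import Mathlib
import Pool.Agent.H617.WR.O

set_option autoImplicit false

/-! The bilinear form of the estimates. -/

namespace Pool.Agent.H617.WR
open Finset Filter Topology
open Pool.Agent.H617.WH
open Pool.Agent.H617.WK
open Pool.Agent.Helper82K9.EL (RMul FarR)
open Pool.Agent.E8helper16.SL

/-- the bilinear form -/
theorem bil (k D : ℕ) (hk : 1 ≤ k) (θ : ℝ) (hθ1 : 1 / 2 < θ) (hθ2 : θ < 1) (ε : ℝ) (hε : 0 < ε) :
    ∃ A N₀ : ℕ, ∀ N : ℕ, N₀ ≤ N → ∀ F : ℕ → ℝ, RMul F → FarR A N F →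
      ∀ H : ℕ, Real.log N ^ ((k : ℝ) * θ) ≤ H →
      ∀ a : Fin k → ℕ, Function.Injective a → (∀ i, a i ≤ 2 * N) → (∀ i j, a i ≤ a j + D) → ∀ B : ℕ, B + H ≤ 2 * N →
      ∀ b c : ℕ → ℂ, (∀ n, ‖b n‖ ≤ 1) → (∀ h, ‖c h‖ ≤ 1) → ∀ X : ℕ → ℕ, (∀ h, X h ≤ N) →
      ‖∑ h ∈ Icc 1 H, c h * ∑ n ∈ Ioc 0 (X h), b n * (Lk a n : ℂ) * (F (n + (B + h)) : ℂ)‖ ≤
        (1 - θ) / θ * ((∑ n ∈ Ioc 0 N, ‖b n‖ * Lk a n) * ∑ h ∈ Icc 1 H, ‖c h‖) + ε * (H * N) := by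
  classical
  obtain ⟨A, N₁, h1⟩ := tupu k D hk θ hθ1 hθ2 (ε / 2) (by positivity)
  refine ⟨A, N₁, fun N hN F hF hFar H hH a ha1 ha2 ha3 B hB b c hb hc X hX => ?_⟩
  obtain ⟨P, hsift, hmain⟩ := h1 N hN
  obtain ⟨ρ, hρ⟩ : ∃ ρ, ρ = (1 - θ) / θ := ⟨_, rfl⟩
  rw [← hρ] at hsift ⊢
  obtain ⟨b', hb'⟩ : ∃ b' : ℕ → ℂ, b' = fun n => b n / (‖b n‖ : ℂ) := ⟨_, rfl⟩
  have hb1 : ∀ n, ‖b' n‖ ≤ 1 := by
    intro n
    rw [hb']
    simp only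
    rw [norm_div, Complex.norm_real, norm_norm]
    exact div_self_le_one _
  have hb2 : ∀ n, b' n * (‖b n‖ : ℂ) = b n := by
    intro n
    rw [hb']
    simp only
    by_cases q : b n = 0
    · rw [q]; simp
    · have : ((‖b n‖ : ℝ) : ℂ) ≠ 0 := by
        rw [Ne, Complex.ofReal_eq_zero, norm_eq_zero]
        exact q
      field_simp
  obtain ⟨s, hs⟩ : ∃ s : ℕ → ℝ, s = fun h => ‖∑ n ∈ Ioc 0 (X h), b n * (Lk a n : ℂ) * (F (n + (B + h)) : ℂ)‖ := ⟨_, rfl⟩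
  obtain ⟨T, hT⟩ : ∃ T, T = ∑ n ∈ Ioc 0 N, ‖b n‖ * Lk a n := ⟨_, rfl⟩
  have hTu : ∑ n ∈ Ioc 0 N, Lk a n * ‖b n‖ = T := by
    rw [hT]
    exact sum_congr rfl fun n _ => mul_comm _ _
  have hsub : ∀ S : Finset ℕ, S ⊆ Icc 1 H → ∑ h ∈ S, s h ≤ ρ * (S.card * T) + ε * (H * N) := by
    intro S hS
    have g1 := hmain F hF hFar H hH S hS a ha1 ha2 ha3 (fun n => ‖b n‖) (fun n => norm_nonneg _) hb B hB b' hb1 X hX
    have g2 := hsift H hH S hS a ha1 ha2 ha3 (fun n => ‖b n‖) (fun n => norm_nonneg _) hb B hB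
    rw [hTu] at g2
    have e1 : ∑ h ∈ S, ‖∑ n ∈ Ioc 0 (X h), b' n * ((Lk a n * ‖b n‖ : ℝ) : ℂ) * (F (n + (B + h)) : ℂ)‖ = ∑ h ∈ S, s h := by
      apply sum_congr rfl
      intro h _
      rw [hs]
      simp only
      congr 1
      apply sum_congr rfl
      intro n _
      rw [← hb2 n]
      push_cast
      ring_nf
      rw [hb2 n]
    rw [e1] at g1
    have g3 : ∑ h ∈ S, ∑ n ∈ Ioc 0 N, Lk a n * ‖b n‖ * (z0 P (n + (B + h)) * |F (n + (B + h))|) ≤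
        ∑ h ∈ S, ∑ n ∈ Ioc 0 N, Lk a n * ‖b n‖ * z0 P (n + (B + h)) := by
      apply sum_le_sum
      intro h _
      apply sum_le_sum
      intro n _
      apply mul_le_mul_of_nonneg_left _ (mul_nonneg (Lk_nonneg a n) (norm_nonneg _))
      exact mul_le_of_le_one_right (z0_nonneg P _) (hF.abs _)
    linarith
  obtain ⟨S, hS⟩ : ∃ S, S = (Icc 1 H).filter (fun h => ρ * T < s h) := ⟨_, rfl⟩
  have hSs : S ⊆ Icc 1 H := by rw [hS]; exact filter_subset _ _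
  have g1 := hsub S hSs
  have g2 : ‖∑ h ∈ Icc 1 H, c h * ∑ n ∈ Ioc 0 (X h), b n * (Lk a n : ℂ) * (F (n + (B + h)) : ℂ)‖ ≤ ∑ h ∈ Icc 1 H, ‖c h‖ * s h := by
    refine (norm_sum_le _ _).trans (le_of_eq ?_)
    apply sum_congr rfl
    intro h _
    rw [norm_mul, hs]
  have g3 : ∑ h ∈ Icc 1 H, ‖c h‖ * (s h - ρ * T) ≤ ∑ h ∈ S, (s h - ρ * T) := by
    rw [hS, sum_filter]
    apply sum_le_sum
    intro h _
    split_ifs with q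
    · exact mul_le_of_le_one_left (by linarith) (hc h)
    · push Not at q
      exact mul_nonpos_of_nonneg_of_nonpos (norm_nonneg _) (by linarith)
  rw [sum_sub_distrib, sum_const, nsmul_eq_mul] at g3
  have g4 : ∑ h ∈ Icc 1 H, ‖c h‖ * (s h - ρ * T) = ∑ h ∈ Icc 1 H, ‖c h‖ * s h - ρ * (T * ∑ h ∈ Icc 1 H, ‖c h‖) := by
    rw [mul_sum, mul_sum, ← sum_sub_distrib]
    apply sum_congr rfl
    intro h _
    ring
  rw [g4] at g3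
  rw [← hT]
  have e : (S.card : ℝ) * (ρ * T) = ρ * (S.card * T) := by ring
  linarith

end Pool.Agent.H617.WR
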