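import Mathlib
import Pool.Agent.H617.WR.O

set_option autoImplicit false

/-! The bilinear form of the estimates, for arbitrary weights on rough tuples. -/

namespace Pool.Agent.H617.WR
open Finset Filter Topology
open Pool.Agent.H373R2.T7 (mem_pz)
open Pool.Agent.H617.WH
open Pool.Agent.H617.WK
open Pool.Agent.H617.WN
open Pool.Agent.Helper82K9.EL (RMul FarR)
open Pool.Agent.E8helper16.SL

/-- from sets to bilinear forms -/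
lemma bil_core {N H B : ℕ} {W : ℕ → ℝ} (hW : ∀ n, 0 ≤ W n) {P : Finset ℕ} {F : ℕ → ℝ} (hF : ∀ n, |F n| ≤ 1) {ρ ε : ℝ}
    (hs : ∀ S : Finset ℕ, S ⊆ Icc 1 H → ∀ u : ℕ → ℝ, (∀ n, 0 ≤ u n) → (∀ n, u n ≤ 1) →
      ∑ h ∈ S, ∑ n ∈ Ioc 0 N, W n * u n * z0 P (n + (B + h)) ≤ ρ * (S.card * ∑ n ∈ Ioc 0 N, W n * u n) + ε / 2 * (H * N))
    (hm : ∀ S : Finset ℕ, S ⊆ Icc 1 H → ∀ u : ℕ → ℝ, (∀ n, 0 ≤ u n) → (∀ n, u n ≤ 1) → ∀ b : ℕ → ℂ, (∀ n, ‖b n‖ ≤ 1) →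
      ∀ X : ℕ → ℕ, (∀ h, X h ≤ N) →
      ∑ h ∈ S, ‖∑ n ∈ Ioc 0 (X h), b n * ((W n * u n : ℝ) : ℂ) * (F (n + (B + h)) : ℂ)‖ ≤
        ∑ h ∈ S, ∑ n ∈ Ioc 0 N, W n * u n * (z0 P (n + (B + h)) * |F (n + (B + h))|) + ε / 2 * (H * N))
    (b c : ℕ → ℂ) (hb : ∀ n, ‖b n‖ ≤ 1) (hc : ∀ h, ‖c h‖ ≤ 1) (X : ℕ → ℕ) (hX : ∀ h, X h ≤ N) :
    ‖∑ h ∈ Icc 1 H, c h * ∑ n ∈ Ioc 0 (X h), b n * (W n : ℂ) * (F (n + (B + h)) : ℂ)‖ ≤
      ρ * ((∑ n ∈ Ioc 0 N, ‖b n‖ * W n) * ∑ h ∈ Icc 1 H, ‖c h‖) + ε * (H * N) := by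
  classical
  obtain ⟨b', hb'⟩ : ∃ b' : ℕ → ℂ, b' = fun n => b n / (‖b n‖ : ℂ) := ⟨_, rfl⟩
  have hb1 : ∀ n, ‖b' n‖ ≤ 1 := by
    intro n
    rw [hb']
    simp only
    rw [norm_div, Complex.norm_real, norm_norm]
    exact div_self_le_one _
  have hb2 : ∀ n, b' n * (‖b n‖ : ℂ) = b n := by
    intro n
    rw [hb']
    simp only
    by_cases q : b n = 0
    · rw [q]; simp
    · have : ((‖b n‖ : ℝ) : ℂ) ≠ 0 := by
        rw [Ne, Complex.ofReal_eq_zero, norm_eq_zero]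
        exact q
      field_simp
  obtain ⟨s, hs'⟩ : ∃ s : ℕ → ℝ, s = fun h => ‖∑ n ∈ Ioc 0 (X h), b n * (W n : ℂ) * (F (n + (B + h)) : ℂ)‖ := ⟨_, rfl⟩
  obtain ⟨T, hT⟩ : ∃ T, T = ∑ n ∈ Ioc 0 N, ‖b n‖ * W n := ⟨_, rfl⟩
  have hTu : ∑ n ∈ Ioc 0 N, W n * ‖b n‖ = T := by
    rw [hT]
    exact sum_congr rfl fun n _ => mul_comm _ _
  have hsub : ∀ S : Finset ℕ, S ⊆ Icc 1 H → ∑ h ∈ S, s h ≤ ρ * (S.card * T) + ε * (H * N) := by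
    intro S hS
    have g1 := hm S hS (fun n => ‖b n‖) (fun n => norm_nonneg _) hb b' hb1 X hX
    have g2 := hs S hS (fun n => ‖b n‖) (fun n => norm_nonneg _) hb
    rw [hTu] at g2
    have e1 : ∑ h ∈ S, ‖∑ n ∈ Ioc 0 (X h), b' n * ((W n * ‖b n‖ : ℝ) : ℂ) * (F (n + (B + h)) : ℂ)‖ = ∑ h ∈ S, s h := by
      apply sum_congr rfl
      intro h _
      rw [hs']
      simp only
      congr 1
      apply sum_congr rfl
      intro n _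
      rw [← hb2 n]
      push_cast
      ring_nf
      rw [hb2 n]
    rw [e1] at g1
    have g3 : ∑ h ∈ S, ∑ n ∈ Ioc 0 N, W n * ‖b n‖ * (z0 P (n + (B + h)) * |F (n + (B + h))|) ≤
        ∑ h ∈ S, ∑ n ∈ Ioc 0 N, W n * ‖b n‖ * z0 P (n + (B + h)) := by
      apply sum_le_sum
      intro h _
      apply sum_le_sum
      intro n _
      apply mul_le_mul_of_nonneg_left _ (mul_nonneg (hW n) (norm_nonneg _))
      exact mul_le_of_le_one_right (z0_nonneg P _) (hF _)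
    linarith
  obtain ⟨S, hS⟩ : ∃ S, S = (Icc 1 H).filter (fun h => ρ * T < s h) := ⟨_, rfl⟩
  have hSs : S ⊆ Icc 1 H := by rw [hS]; exact filter_subset _ _
  have g1 := hsub S hSs
  have g2 : ‖∑ h ∈ Icc 1 H, c h * ∑ n ∈ Ioc 0 (X h), b n * (W n : ℂ) * (F (n + (B + h)) : ℂ)‖ ≤ ∑ h ∈ Icc 1 H, ‖c h‖ * s h := by
    refine (norm_sum_le _ _).trans (le_of_eq ?_)
    apply sum_congr rfl
    intro h _
    rw [norm_mul, hs']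
  have g3 : ∑ h ∈ Icc 1 H, ‖c h‖ * (s h - ρ * T) ≤ ∑ h ∈ S, (s h - ρ * T) := by
    rw [hS, sum_filter]
    apply sum_le_sum
    intro h _
    split_ifs with q
    · exact mul_le_of_le_one_left (by linarith) (hc h)
    · push Not at q
      exact mul_nonpos_of_nonneg_of_nonpos (norm_nonneg _) (by linarith)
  rw [sum_sub_distrib, sum_const, nsmul_eq_mul] at g3
  have g4 : ∑ h ∈ Icc 1 H, ‖c h‖ * (s h - ρ * T) = ∑ h ∈ Icc 1 H, ‖c h‖ * s h - ρ * (T * ∑ h ∈ Icc 1 H, ‖c h‖) := by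
    rw [mul_sum, mul_sum, ← sum_sub_distrib]
    apply sum_congr rfl
    intro h _
    ring
  rw [g4] at g3
  rw [← hT]
  have e : (S.card : ℝ) * (ρ * T) = ρ * (S.card * T) := by ring
  linarith

/-- the bilinear form, for arbitrary weights on rough tuples -/
theorem bilw (k D : ℕ) (hk : 1 ≤ k) (θ : ℝ) (hθ1 : 1 / 2 < θ) (hθ2 : θ < 1) (ε : ℝ) (hε : 0 < ε) :
    ∃ K A N₀ : ℕ, ∀ N z : ℕ, N₀ ≤ z → z ≤ N → Real.log (Real.log (3 * N : ℕ)) ^ K ≤ Real.log z →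
      ∀ F : ℕ → ℝ, RMul F → FarR A N F →
      ∀ H : ℕ, Real.log z ^ ((k : ℝ) * θ) ≤ H →
      ∀ a : Fin k → ℤ, Sep a D → (∀ i, |a i| ≤ 2 * N) → ∀ B : ℕ, B + H ≤ 2 * N → ∀ W : ℕ → ℝ, Wt a z W →
      ∀ b c : ℕ → ℂ, (∀ n, ‖b n‖ ≤ 1) → (∀ h, ‖c h‖ ≤ 1) → ∀ X : ℕ → ℕ, (∀ h, X h ≤ N) →
      ‖∑ h ∈ Icc 1 H, c h * ∑ n ∈ Ioc 0 (X h), b n * (W n : ℂ) * (F (n + (B + h)) : ℂ)‖ ≤
        (1 - θ) / θ * ((∑ n ∈ Ioc 0 N, ‖b n‖ * W n) * ∑ h ∈ Icc 1 H, ‖c h‖) + ε * (H * N) := by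
  obtain ⟨K, hK1, hK⟩ := kf_ex k hk
  obtain ⟨α, β, hα, hαβ, hβ, A, N₁, h1⟩ := realr k D hk K hK θ hθ1 hθ2 (ε / 2) (by positivity)
  refine ⟨K, A, N₁ + 1, fun N z hz hzN hzK F hF hFar H hH a hs ha B hB W hW b c hb hc X hX => ?_⟩
  obtain ⟨hsift, hmain⟩ := h1 N (by omega) z (by omega) hzN hzK
  have hWu : ∀ u : ℕ → ℝ, (∀ n, 0 ≤ u n) → (∀ n, u n ≤ 1) → Wt a z (fun n => W n * u n) := by
    intro u hu0 hu1
    refine ⟨fun n => mul_nonneg (hW.nn n) (hu0 n), fun n => ?_, fun n hn => ?_⟩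
    · exact (mul_le_of_le_one_right (hW.nn n) (hu1 n)).trans (hW.le n)
    · apply hW.sup n
      intro q
      apply hn
      rw [q, zero_mul]
  apply bil_core hW.nn (P := WH.PP α β z) (fun n => hF.abs n) _ _ b c hb hc X hX
  · intro S hS u hu0 hu1
    exact hsift H hH S hS a hs _ (hWu u hu0 hu1) B hB
  · intro S hS u hu0 hu1 b hb X hX
    exact hmain F hF hFar H hH S hS a hs ha _ (hWu u hu0 hu1) B hB b hb X hX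

end Pool.Agent.H617.WR
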